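import Pool.Agent.H382Z.WL.Defs
import Pool.Agent.H382Z.WL.Main

/-!
# The Weisfeiler-Leman dimension of strongly regular graphs is unbounded

The two graphs are graphs of translation nets.  They come from a non-split extension of two
Kronecker modules over a prime field and from the split extension.  The extension splits over
every small closed submodule, compatibly, which gives the equality of the colourings.  The two
modules have endomorphism rings of different sizes, so the graphs are not isomorphic.
-/

namespace Pool.Agent.Results.MP_d81a4d_co.Unbounded

open Pool.Agent.H382Z.WL

open Classical in
/-- For every `k` there are non-isomorphic strongly regular graphs with the same parameters which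
the `k`-dimensional Weisfeiler-Leman method does not distinguish. -/
theorem result : ∀ k : ℕ, ∃ (V : Type) (_ : Fintype V) (G H : SimpleGraph V) (n κ l μ : ℕ),
    G.IsSRGWith n κ l μ ∧ H.IsSRGWith n κ l μ ∧ IsEmpty (G ≃g H) ∧ WLEq k G H :=
  main

end Pool.Agent.Results.MP_d81a4d_co.Unbounded
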